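import Mathlib
import Pool.Agent.N452.FF.Xor

/-!
# OMV over the field with two elements: the trade-off between dimension and number of readings

The decision version of OMV over `ZMod 2`: given an `n × n` matrix `M` and `n` pairs `(u_i, v_i)` of
vectors, is some product `u_iᵀ M v_i` equal to one (`product`)? The items of the input are the matrix
and the pairs. Everything that can be computed from the matrix alone is free.

*Formulas* (`Fml`). The wires carry vectors of dimension `d` over a finite field `K` (for instance
`ZMod 2`). The leaves are vectors, or matrices which are applied to a vector (`act`), which depend in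
an arbitrary way on one item, or on `w` words of `c` bits, each of which is an arbitrary function of
one item. The gates are sums, arbitrary bilinear maps of two vectors (`bil`), arbitrary functions of
the values of `e` linear forms (`fn`), and gates `sym` of any fan-in whose value is an arbitrary
function of the number of the inputs for which a linear form is not zero. So products of matrices of
order `d` over `K`, and the contractions of tensor networks over `K` whose intermediate tensors have
at most `d` entries, are formulas of this kind.

*Circuits* (`Circuit`) compute shared bits; each bit is the result of a branching program whose tests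
are formulas, and the leaves may also read the bits computed before. A leaf which reads an item pays
its price: one for a pair, nothing for the matrix, and for a shared bit the number of the pairs on
which the bit depends. The cost is the sum of the prices of all leaves, plus the number of inner nodes
of the branching programs, plus the number of wires which lead to gates `sym`. All other gates and
constants are free.

(1) Random circuits with error probability at most `1 / 3` have cost
`s ≥ n ^ 3 / (300 (w c + log₂ n + d (d + |K| ^ e) log₂ |K|))`.
(2) For `K = ZMod 2` one formula of dimension `d`, without shared bits, has cost at most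
`2 n (n / d + 1) ^ 2 + n + 1`.

So for constant `w`, `c`, for `K = ZMod 2`, `e = 1` (or any `e ≤ log₂ d`) and for `√(log n) ≤ d ≤ n` the
least cost is of the exact order `n ^ 3 / d ^ 2`. An algorithm of this kind which makes `n ^ (3 - ε)`
readings computes with vectors of dimension `n ^ (ε / 2)`, or with shared bits which depend on many
pairs.

Proof. (1) The pair `(u_i, v_i)` can ask for each of the `n ^ 2` entries of the matrix. We count the
functions of this pair which arise when the others are fixed. If `r` leaves see it or bits which depend
on it, there are `O (r)` places at which other parts enter, and the function of the vector at such a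
place is an affine map or a function of `e` linear forms, so there are at most
`2 |K| ^ (d (d + |K| ^ e + e + 1))` possibilities; the values of the shared bits are treated one after
the other (`Pool.Agent.N452.FF.Core`, `Pool.Agent.N452.FF.Prog`; Nechiporuk's method).
(2) The matrix is cut into blocks of order `d`.
-/

set_option autoImplicit false

namespace Pool.Agent.Results.MP_0f1f76_lc.TensorCircuits

open Pool.Agent.TH697.Form (IsProb)
open Pool.Agent.TH697.Row (ApproximatesOn)
open Pool.Agent.Y638.RF.Xor (Item product)
open Pool.Agent.N452.FF (Circuit)
open Pool.Agent.N452.TF.Xor (pairs)

theorem result :
    (∀ (K : Type) [Field K] [Fintype K] [DecidableEq K] (n c w d e : ℕ),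
      32 ≤ n → 1 ≤ c → 1 ≤ w → 1 ≤ e →
      ∀ (Ω : Type) [Fintype Ω] (μ : Ω → ℝ), IsProb μ →
        ∀ (s : ℕ) (C : Ω → Circuit K (Option (Fin n)) (Item n) w (2 ^ c) d e),
          (∀ ω, (C ω).circ.cost (pairs n) ≤ s) →
          ApproximatesOn μ (fun ω => (C ω).eval) (fun _ => True) (product n) →
          (n : ℝ) ^ 3 ≤ 300 * (w * c + Real.logb 2 n +
            d * (d + (Fintype.card K : ℝ) ^ e) * Real.logb 2 (Fintype.card K)) * s) ∧
    (∀ n w q d e : ℕ, 1 ≤ d → ∃ C : Circuit (ZMod 2) (Option (Fin n)) (Item n) w q d e,
      C.bits = 0 ∧ C.circ.cost (pairs n) ≤ 2 * n * (n / d + 1) ^ 2 + n + 1 ∧
        ∀ x, C.eval x = product n x) :=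
  ⟨fun _ _ _ _ _ _ _ _ _ hn hc hw he _ _ μ hμ s C hs hC =>
    Pool.Agent.N452.FF.Xor.bound hn hc hw he μ hμ s C hs hC,
    fun n w q d e hd => Pool.Agent.N452.FF.Xor.upper n w q d e hd⟩

end Pool.Agent.Results.MP_0f1f76_lc.TensorCircuits
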